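import Pool.Agent.Q5.DC.Law
import Pool.Agent.Q5.DC.JLaw

/-!
# Deligne's relation over `E` and the joint distribution of the partial Euler products at all embeddings

Let `𝓜` be a motive over `ℚ` of odd weight `w = 2m - 1` with coefficients in a totally real number field `E`; the central
point `m` is critical. Let `P_p ∈ E[X]` be the polynomial `det(1 - Frob_p X | 𝓜_λ^{I_p})`, let for every embedding `τ` of
`E` the numbers `α_{τ,p,j}` be the reciprocal roots of `τ(P_p)`, and `L_τ` the component of `L(s, 𝓜)`, assumed to be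
holomorphic and of polynomial growth in a half plane `Re s > m - η`. Let `Ω_τ ≠ 0` be the components of
`(2πi)^{m n^ε} c^ε(𝓜)`. Let

`P_τ(x) = ∏_{p ≤ x} |τ(P_p)(p^(-m))|`, `P*_τ(x) = exp (- ∑_{p^k ≤ x} tr(Frob_p^k)/(k p^{mk}))`

be the (reciprocals of the) partial Euler products AT THE CENTRE, and for real `ρ_τ` and `A_τ > 0` put
`δ_τ(ρ, A; x) = log (A P*_τ(x) / (e^γ log x)^ρ)`. Consider the VECTOR `(log x · δ_τ(ρ_τ, A_τ; x))_τ ∈ ℝ^Hom(E,ℂ)`.

1. For all real `ρ_τ` and `A_τ > 0` the following are equivalent: for every `τ` the function `L_τ` has no zeros with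
   `Re s > m`, `ρ_τ` is its order at `m` and `A_τ` its leading coefficient; all mean squares of the components are bounded;
   the vector has a JOINT LIMITING LOGARITHMIC DISTRIBUTION `ν` with second moments, to which the mean squares tend; the
   same, and `ν` is unique, its means are `0`, its covariances are `∑_{t ≠ 0} m_τ(t) m_τ'(t)/t²` over the COMMON zeros
   `m + it` of `L_τ` and `L_τ'` (`m_τ(t)` the multiplicity), they are the limits of the logarithmic means of the products,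
   and `ν` is supported in the hyperplane `∑ c_τ y_τ = 0` if and only if `∑ c_τ m_τ(t) = 0` for all `t ≠ 0`.
2. The Riemann hypothesis for all `L_τ` together with DELIGNE'S RELATION `L(m, 𝓜) ∈ Ω · E` is equivalent to: EITHER for
   one `e ∈ E` all numbers `A_τ = τ(e) Ω_τ` are positive and the vector with `ρ_τ = 0` has a joint limiting distribution
   with convergence of the mean squares, OR for some `ρ_τ > 0` and `A_τ > 0` the vector has one.

The same holds for the original products `P_τ(x)`, with `A e^{c_τ}` in the place of `A`, if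
`log x · (∑_{√x < p ≤ x} tr(Frob_p²)/(2 p^{2m}) - c_τ) → 0` for all `τ`.
-/

set_option autoImplicit false

namespace Pool.Agent.Results.MP_100fe7_nt.JointLimitLaw

open Filter Topology Set Complex Polynomial MeasureTheory
open Pool.Agent.Q5.DC (pStar pOrig sqs dStar dOrig RHm LeadM multM HasJointLaw JointLaw)

variable {E : Type} [Field E] {n : ℕ}

/-- The `α τ p j` are the reciprocal roots of `τ(P p)`; they have absolute values at most `p^(w/2)`, `w = 2m - 1`. -/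
def IsRoots (m : ℤ) (P : Nat.Primes → E[X]) (α : (E →+* ℂ) → Nat.Primes → Fin n → ℂ) : Prop :=
  ∀ τ p, (P p).map τ = ∏ j, (1 - C (α τ p j) * X) ∧
    ∀ j, ‖α τ p j‖ ≤ (p : ℝ) ^ ((m : ℝ) - 1 / 2)

/-- `L τ` is the Euler product `∏_p τ(P p)(p^(-s))⁻¹` for `Re s > m + 1/2`, continued holomorphically and with polynomial
growth to a half plane `Re s > m - η`. -/
def IsL (m : ℤ) (P : Nat.Primes → E[X]) (L : (E →+* ℂ) → ℂ → ℂ) : Prop :=
  ∀ τ, (∃ (η C : ℝ) (κ : ℕ), 0 < η ∧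
    ∀ s : ℂ, m - η < s.re → DifferentiableAt ℂ (L τ) s ∧ ‖L τ s‖ ≤ C * (1 + ‖s‖) ^ κ) ∧
  ∀ s : ℂ, (m : ℝ) + 1 / 2 < s.re →
    HasProd (fun p : Nat.Primes => (eval₂ τ ((p : ℂ) ^ (-s)) (P p))⁻¹) (L τ s)

/-- The errors of the partial products: with the prime powers, or the original ones if the second order terms tend to
constants with a rate. -/
def IsError (m : ℤ) (α : (E →+* ℂ) → Nat.Primes → Fin n → ℂ)
    (δ : (E →+* ℂ) → ℝ → ℝ → ℝ → ℝ) : Prop :=
  (∀ τ ρ A, δ τ ρ A = dStar m (α τ) ρ A) ∨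
  ∃ c : (E →+* ℂ) → ℝ, ∀ τ,
    Tendsto (fun x : ℝ => Real.log x * (sqs m (α τ) x - c τ)) atTop (𝓝 0) ∧
    ∀ ρ A, δ τ ρ A = dOrig m (α τ) ρ A (c τ)

/-- `∫_e^X (log x · δ(x))² dx/x ≤ B log X` for some `B` and all large `X`. -/
def BoundedMeanSquare (δ : ℝ → ℝ) : Prop := ∃ B : ℝ, ∀ᶠ X : ℝ in atTop,
  ∫ x in Real.exp 1..X, (Real.log x * δ x) ^ 2 / x ≤ B * Real.log X

open Pool.Agent.Q5.DC (Roots Temp IsErr err lead_exists roots_of temp_of value_of zero_of joint_tfae)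

/-- **Deligne's relation and the joint distribution of the partial products.** -/
theorem result (E : Type) [Field E] [NumberField E] (hreal : ∀ (τ : E →+* ℂ) (x : E), (τ x).im = 0)
    {n : ℕ} (m : ℤ) (P : Nat.Primes → E[X]) (α : (E →+* ℂ) → Nat.Primes → Fin n → ℂ)
    (hα : IsRoots m P α) (L : (E →+* ℂ) → ℂ → ℂ) (hL : IsL m P L)
    (Ω : (E →+* ℂ) → ℂ) (hΩ : ∀ τ, Ω τ ≠ 0)
    (δ : (E →+* ℂ) → ℝ → ℝ → ℝ → ℝ) (hδ : IsError m α δ) :
    (∀ ρ A : (E →+* ℂ) → ℝ, (∀ τ, 0 < A τ) →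
      List.TFAE [∀ τ, RHm m (L τ) ∧ LeadM m (L τ) (ρ τ) (A τ),
        ∀ τ, BoundedMeanSquare (δ τ (ρ τ) (A τ)),
        HasJointLaw (fun τ => δ τ (ρ τ) (A τ)),
        JointLaw (fun τ => multM m (L τ)) (fun τ => δ τ (ρ τ) (A τ))]) ∧
    (((∀ τ, RHm m (L τ)) ∧ ∃ e : E, ∀ τ, L τ m = τ e * Ω τ) ↔
      (∃ (e : E) (A : (E →+* ℂ) → ℝ), (∀ τ, 0 < A τ ∧ (A τ : ℂ) = τ e * Ω τ) ∧
        HasJointLaw (fun τ => δ τ 0 (A τ))) ∨
      ∃ ρ A : (E →+* ℂ) → ℝ, (∀ τ, 0 < ρ τ ∧ 0 < A τ) ∧ HasJointLaw (fun τ => δ τ (ρ τ) (A τ))) := by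
  have hR : ∀ τ, Roots m (α τ) := fun τ => roots_of (hreal τ) (hα τ)
  have hT : ∀ τ, Temp m (α τ) (L τ) := fun τ => temp_of (hα τ) (hL τ)
  have hE : ∀ τ ρ A, IsErr m (α τ) ρ A (δ τ ρ A) := by
    intro τ ρ A
    rcases hδ with h | ⟨c, h⟩
    · exact Or.inl (h τ ρ A)
    · exact Or.inr ⟨c τ, (h τ).1, (h τ).2 ρ A⟩
  have main : ∀ ρ A : (E →+* ℂ) → ℝ, (∀ τ, 0 < A τ) →
      List.TFAE [∀ τ, RHm m (L τ) ∧ LeadM m (L τ) (ρ τ) (A τ),
        ∀ τ, BoundedMeanSquare (δ τ (ρ τ) (A τ)),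
        HasJointLaw (fun τ => δ τ (ρ τ) (A τ)),
        JointLaw (fun τ => multM m (L τ)) (fun τ => δ τ (ρ τ) (A τ))] := by
    intro ρ A hA
    exact joint_tfae (fun τ => (err (hR τ) (hT τ) (hA τ) (hE τ (ρ τ) (A τ))).1)
      (fun τ => (err (hR τ) (hT τ) (hA τ) (hE τ (ρ τ) (A τ))).2.1.out 0 1)
      (fun τ => (err (hR τ) (hT τ) (hA τ) (hE τ (ρ τ) (A τ))).2.2.2)
  have key : ∀ ρ A : (E →+* ℂ) → ℝ, (∀ τ, 0 < A τ) →
      ((∀ τ, RHm m (L τ) ∧ LeadM m (L τ) (ρ τ) (A τ)) ↔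
        HasJointLaw (fun τ => δ τ (ρ τ) (A τ))) := fun ρ A hA => (main ρ A hA).out 0 2
  refine ⟨main, ?_⟩
  constructor
  · rintro ⟨hRH, e, he⟩
    choose r A hA h1 using fun τ => lead_exists (hR τ) (hT τ) (hRH τ)
    by_cases he0 : e = 0
    · right
      have hr : ∀ τ, r τ ≠ 0 := by
        intro τ h0
        have h2 := h1 τ
        rw [h0] at h2
        have h3 := (value_of (hT τ) (A := A τ)).1 ⟨0, by simp, h2⟩
        rw [he τ, he0, map_zero, zero_mul] at h3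
        have h4 : A τ = 0 := by exact_mod_cast h3.symm
        linarith [hA τ]
      refine ⟨fun τ => r τ, A, fun τ => ⟨Nat.cast_pos.2 (Nat.pos_of_ne_zero (hr τ)), hA τ⟩, ?_⟩
      exact (key (fun τ => r τ) A hA).1 fun τ => ⟨hRH τ, r τ, rfl, h1 τ⟩
    · left
      have hlead : ∀ τ, LeadM m (L τ) 0 (A τ) := by
        intro τ
        have hne : L τ m ≠ 0 := by
          rw [he τ]
          exact mul_ne_zero ((map_ne_zero τ).2 he0) (hΩ τ)
        have hr : r τ = 0 := by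
          by_contra hr
          exact hne (zero_of (hT τ) (ρ := r τ) (A := A τ) (by exact_mod_cast Nat.pos_of_ne_zero hr)
            ⟨r τ, rfl, h1 τ⟩)
        have h2 := h1 τ
        rw [hr] at h2
        exact ⟨0, by simp, h2⟩
      refine ⟨e, A, fun τ => ⟨hA τ, ?_⟩, (key (fun _ => 0) A hA).1 fun τ => ⟨hRH τ, hlead τ⟩⟩
      rw [← (value_of (hT τ)).1 (hlead τ), he τ]
  · rintro (⟨e, A, h1, h2⟩ | ⟨ρ, A, h1, h2⟩)
    · have h3 := (key (fun _ => 0) A fun τ => (h1 τ).1).2 h2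
      refine ⟨fun τ => (h3 τ).1, e, fun τ => ?_⟩
      rw [← (h1 τ).2]
      exact (value_of (hT τ)).1 (h3 τ).2
    · have h3 := (key ρ A fun τ => (h1 τ).2).2 h2
      refine ⟨fun τ => (h3 τ).1, 0, fun τ => ?_⟩
      rw [map_zero, zero_mul]
      exact zero_of (hT τ) (h1 τ).1 (h3 τ).2

end Pool.Agent.Results.MP_100fe7_nt.JointLimitLaw
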